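import Pool.Agent.V11214.CP.Long

/-!
# The cop number is at most a third of the number of vertices of the longest path

The known bound is `⌈2 p / 3⌉ + 3`, where `p` is the number of vertices of the longest path. Here
`c(G) ≤ ⌈p / 3⌉`.

Proof. Let `y₁, …, y_d` be a path all of whose vertices are guarded, by static cops on
`y₂, y₅, y₈, …` (each guards three consecutive vertices of the path), such that `y_d` has neighbours
in the robber's component `C` of the rest of the graph. A new cop goes to a neighbour `y_{d+1}` of
`y_d` in `C`, then to a neighbour `y_{d+2}` of `y_{d+1}` in the new component of the robber, from where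
he also guards a neighbour `y_{d+3}` of `y_{d+2}` in the next component. The path gets longer by three
vertices for every cop.
-/

set_option autoImplicit false

namespace Pool.Agent.Results.MP_8941bc_co.OneThird

open N6ef48c04 Pool.Agent.V11214.CP

/-- No path of `G` has more than `p` vertices (a path is a list of different vertices, consecutive
ones of which are adjacent). -/
def LongestPathLe {V : Type} (G : SimpleGraph V) (p : ℕ) : Prop :=
  ∀ L : List V, L.Nodup → L.IsChain G.Adj → L.length ≤ p

/-- **Theorem.** Every connected graph whose longest path has at most `p` vertices has cop number at
most `⌈p / 3⌉`. -/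
theorem result : ∀ (V : Type) [Fintype V] (G : SimpleGraph V), G.Connected →
    ∀ p : ℕ, LongestPathLe G p → copNumber G ≤ (p + 2) / 3 := by
  intro V _ G hG p hp
  exact copNumber_le_of_paths G hG p ((p + 2) / 3) (by omega) hp

end Pool.Agent.Results.MP_8941bc_co.OneThird
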