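import Pool.Agent.W149.VD.Graph

/-!
The cop number and the order `p` of a longest path, for graphs with a small vertex cover. By the
bound `c(G) ≤ 115 √τ (log τ + 1) + 1` of the starting files, with the vertex cover number `τ`, a
connected graph with `c(G) ≥ ε p` has no vertex cover with fewer than `c p ^ 2 / log ^ 2 p`
vertices, although its longest path has only `p` vertices.
-/

set_option autoImplicit false
open N6ef48c04

namespace Pool.Agent.Results.MP_8941bc_co.SmallCover

universe u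

/-- The longest path of `G` has length `p`: `G` contains a path on `p` vertices and no path of `G`
has more than `p` vertices. (A walk with `l` edges has `l + 1` vertices.) -/
def LongestPath {V : Type u} (G : SimpleGraph V) (p : ℕ) : Prop :=
  (∃ (u v : V) (q : G.Walk u v), q.IsPath ∧ q.length + 1 = p) ∧
    ∀ (u v : V) (q : G.Walk u v), q.IsPath → q.length + 1 ≤ p

theorem first_part (ε : ℝ) (hε : 0 < ε) (V : Type u) [Fintype V] (G : SimpleGraph V)
    (hG : G.Connected) (p : ℕ) (hp : 2 / ε < p)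
    (A : Finset V) (hA : ∀ x y, G.Adj x y → x ∈ A ∨ y ∈ A)
    (h : (A.card : ℝ) * (Real.log A.card + 1) ^ 2 ≤ (ε * p / 230) ^ 2) :
    (copNumber G : ℝ) < ε * p := by
  have h1 := Pool.Agent.W149.VD.cover_bound G hG A hA
  have hl : 0 ≤ Real.log (A.card : ℝ) := Real.log_natCast_nonneg _
  have hp' : 2 < ε * p := by
    rw [div_lt_iff₀ hε] at hp
    linarith
  have h2 : √(A.card : ℝ) * (Real.log A.card + 1) ≤ ε * p / 230 := by
    have h3 : √(A.card : ℝ) * (Real.log A.card + 1) =
        √((A.card : ℝ) * (Real.log A.card + 1) ^ 2) := by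
      rw [Real.sqrt_mul (Nat.cast_nonneg _), Real.sqrt_sq (by linarith)]
    rw [h3]
    calc √((A.card : ℝ) * (Real.log A.card + 1) ^ 2) ≤ √((ε * p / 230) ^ 2) := Real.sqrt_le_sqrt h
      _ = ε * p / 230 := Real.sqrt_sq (by linarith)
  linarith

/-- (1) Let `ε > 0`, let `G` be a connected graph whose longest path has `p > 2 / ε` vertices, and
let `A` be a vertex cover of `G` with `|A| (log |A| + 1) ^ 2 ≤ (ε p / 230) ^ 2`. Then `c(G) < ε p`.

(2) For all `ε, δ > 0` there is a `p₀` such that `c(G) < ε p` for every connected graph `G` whose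
longest path has `p ≥ p₀` vertices and which has a vertex cover with at most `p ^ (2 - δ)` vertices
(in particular if `G` has at most `p ^ (2 - δ)` vertices). -/
theorem result :
    (∀ ε : ℝ, 0 < ε → ∀ (V : Type u) [Fintype V] (G : SimpleGraph V), G.Connected → ∀ p : ℕ,
      LongestPath G p → 2 / ε < p → ∀ A : Finset V, (∀ x y, G.Adj x y → x ∈ A ∨ y ∈ A) →
      (A.card : ℝ) * (Real.log A.card + 1) ^ 2 ≤ (ε * p / 230) ^ 2 →
      (copNumber G : ℝ) < ε * p) ∧
    ∀ ε δ : ℝ, 0 < ε → 0 < δ → ∃ p₀ : ℕ, ∀ (V : Type u) [Fintype V] (G : SimpleGraph V),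
      G.Connected → ∀ p : ℕ, p₀ ≤ p → LongestPath G p →
      ∀ A : Finset V, (∀ x y, G.Adj x y → x ∈ A ∨ y ∈ A) → (A.card : ℝ) ≤ (p : ℝ) ^ (2 - δ) →
      (copNumber G : ℝ) < ε * p := by
  refine ⟨fun ε hε V _ G hG p _ hp A hA h => first_part ε hε V G hG p hp A hA h, ?_⟩
  intro ε δ hε hδ
  -- `(2 log p + 1) ^ 2 = o(p ^ δ)`
  have hlim : Filter.Tendsto (fun x : ℝ => (2 * Real.log x + 1) ^ 2 / x ^ δ) Filter.atTop
      (nhds 0) := by
    have h1 : (fun x : ℝ => 2 * Real.log x + 1) =o[Filter.atTop] fun x : ℝ => x ^ (δ / 2) := by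
      refine Asymptotics.IsLittleO.add ?_ ?_
      · exact (isLittleO_log_rpow_atTop (by positivity)).const_mul_left 2
      · rw [Asymptotics.isLittleO_one_left_iff]
        exact tendsto_norm_atTop_atTop.comp (tendsto_rpow_atTop (by positivity))
    have h2 := h1.pow (n := 2) (by norm_num)
    have h3 : (fun x : ℝ => (x ^ (δ / 2)) ^ 2) =ᶠ[Filter.atTop] fun x : ℝ => x ^ δ := by
      filter_upwards [Filter.eventually_ge_atTop 0] with x hx
      rw [← Real.rpow_natCast, ← Real.rpow_mul hx]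
      congr 1
      push_cast
      ring
    exact (h2.trans_eventuallyEq h3).tendsto_div_nhds_zero
  have hev := (hlim.comp tendsto_natCast_atTop_atTop).eventually
    (gt_mem_nhds (show (0 : ℝ) < (ε / 230) ^ 2 by positivity))
  obtain ⟨p₁, hp₁⟩ := Filter.eventually_atTop.1 hev
  obtain ⟨p₂, hp₂⟩ := exists_nat_gt (2 / ε)
  refine ⟨max p₁ (max p₂ 1), fun V _ G hG p hpp hp A hA hcard => ?_⟩
  have hpp1 : p₁ ≤ p := (le_max_left _ _).trans hpp
  have hpp2 : p₂ ≤ p := ((le_max_left _ _).trans (le_max_right _ _)).trans hpp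
  have hpp3 : 1 ≤ p := ((le_max_right _ _).trans (le_max_right _ _)).trans hpp
  have hp1 : (1 : ℝ) ≤ p := by exact_mod_cast hpp3
  have hp0 : (0 : ℝ) < p := by linarith
  have h1 := hp₁ p hpp1
  simp only [Function.comp_apply] at h1
  rw [div_lt_iff₀ (by positivity)] at h1
  refine first_part ε hε V G hG p (hp₂.trans_le (by exact_mod_cast hpp2)) A hA ?_
  have hlog : Real.log (A.card : ℝ) ≤ 2 * Real.log p := by
    rcases Nat.eq_zero_or_pos A.card with h0 | h0
    · rw [h0]
      simp only [CharP.cast_eq_zero, Real.log_zero]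
      have := Real.log_nonneg hp1
      linarith
    · have h2 : (0 : ℝ) < A.card := by exact_mod_cast h0
      have h3 : (A.card : ℝ) ≤ (p : ℝ) ^ (2 : ℝ) :=
        hcard.trans (Real.rpow_le_rpow_of_exponent_le hp1 (by linarith))
      have h4 := Real.log_le_log h2 h3
      rwa [Real.log_rpow hp0] at h4
  have hl : 0 ≤ Real.log (A.card : ℝ) := Real.log_natCast_nonneg _
  calc (A.card : ℝ) * (Real.log A.card + 1) ^ 2
      ≤ (p : ℝ) ^ (2 - δ) * (2 * Real.log p + 1) ^ 2 := by
        apply mul_le_mul hcard _ (by positivity) (by positivity)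
        exact pow_le_pow_left₀ (by linarith) (by linarith) 2
    _ ≤ (p : ℝ) ^ (2 - δ) * ((ε / 230) ^ 2 * (p : ℝ) ^ δ) :=
        mul_le_mul_of_nonneg_left h1.le (by positivity)
    _ = (ε / 230) ^ 2 * ((p : ℝ) ^ (2 - δ) * (p : ℝ) ^ δ) := by ring
    _ = (ε * p / 230) ^ 2 := by
        rw [← Real.rpow_add hp0, show 2 - δ + δ = ((2 : ℕ) : ℝ) by norm_num, Real.rpow_natCast]
        ring

end Pool.Agent.Results.MP_8941bc_co.SmallCover
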