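import Pool.Agent.V11185.PathCop

/-!
The cop number and the order `p` of a longest path. For a connected graph on `n` vertices of
diameter at most `D` we prove `c(G) ≤ 4000 √(p (D + 1) (log (log n + 1) + 1)) (log n + 1)`.
Hence `c(G) = o(p)` in the class of the graphs with `(D + 1) (log n + 1) ^ (2 + η) ≤ p`, for each
fixed `η > 0`: a family of graphs with `c(G) ≥ ε p` would need diameter `p ^ (1 - o(1))` or
at least `exp (p ^ c)` vertices.

Proof idea. The robber's territory is always a component of `G - V(Q)` for a path `Q` whose last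
vertex has a neighbour in the territory (a depth first search path). `V(Q)` has at most `p`
vertices, and by the entropy method of the starting files (`TH355.TG`) a team of
`O(√(p (D + 1) log log n) log n)` cops can guard it during as many rounds as the next team needs to
prepare. Two teams which relieve each other extend the path into the territory (and drop the end of
it which has no neighbours in the territory), so that the territory gets smaller each time.
-/

set_option autoImplicit false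
open N6ef48c04

namespace Pool.Agent.Results.MP_8941bc_co.SmallDiameter

universe u

/-- The longest path of `G` has length `p`: `G` contains a path on `p` vertices and no path of `G`
has more than `p` vertices. (A walk with `l` edges has `l + 1` vertices.) -/
def LongestPath {V : Type u} (G : SimpleGraph V) (p : ℕ) : Prop :=
  (∃ (u v : V) (q : G.Walk u v), q.IsPath ∧ q.length + 1 = p) ∧
    ∀ (u v : V) (q : G.Walk u v), q.IsPath → q.length + 1 ≤ p

theorem first_part (V : Type u) [Fintype V] (G : SimpleGraph V) (hG : G.Connected) (p : ℕ)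
    (hp : LongestPath G p) (D : ℕ) (hD : ∀ u v, G.dist u v ≤ D) :
    (copNumber G : ℝ) ≤
      4000 * √(p * (D + 1) * (Real.log (Real.log (Fintype.card V) + 1) + 1)) *
        (Real.log (Fintype.card V) + 1) :=
  Pool.Agent.V11185.PathCop.path_bound G hG D p hD hp.2

theorem second_part (ε η : ℝ) (hε : 0 < ε) (hη : 0 < η) : ∃ p₀ : ℕ,
    ∀ (V : Type u) [Fintype V] (G : SimpleGraph V),
      G.Connected → ∀ p : ℕ, p₀ ≤ p → LongestPath G p → ∀ D : ℕ, (∀ u v, G.dist u v ≤ D) →
      ((D : ℝ) + 1) * (Real.log (Fintype.card V) + 1) ^ (2 + η) ≤ p →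
      (copNumber G : ℝ) < ε * p := by
  set K : ℝ := 16000000 * (2 / η + 1) / ε ^ 2 with hK
  have hK0 : 0 < K := by positivity
  obtain ⟨p₀, hp₀⟩ := exists_nat_gt (Real.exp (K ^ (2 / η)))
  refine ⟨p₀, fun V _ G hG p hpp hp D hD hcond => ?_⟩
  have h1 := first_part V G hG p hp D hD
  obtain ⟨u, v, q, hq, hqp⟩ := hp.1
  have hpn : p ≤ Fintype.card V := by
    have := hq.length_lt
    omega
  have hp1 : 1 ≤ p := by omega
  have hp1' : (1 : ℝ) ≤ p := by exact_mod_cast hp1
  have hpn' : (p : ℝ) ≤ Fintype.card V := by exact_mod_cast hpn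
  set x : ℝ := Real.log (Fintype.card V) + 1 with hx
  have hKp : Real.exp (K ^ (2 / η)) < p := hp₀.trans_le (by exact_mod_cast hpp)
  have hKx : K ^ (2 / η) < x := by
    have h2 : K ^ (2 / η) < Real.log p := (Real.lt_log_iff_exp_lt (by linarith)).2 hKp
    have h3 : Real.log p ≤ Real.log (Fintype.card V) := Real.log_le_log (by linarith) hpn'
    linarith
  have hx1 : 1 ≤ x := by
    have : 0 ≤ Real.log (Fintype.card V) := Real.log_nonneg (by linarith)
    linarith
  have hx0 : 0 < x := by linarith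
  have hlog0 : 0 ≤ Real.log x := Real.log_nonneg hx1
  -- `K < x ^ (η / 2)`
  have hKx2 : K < x ^ (η / 2) := by
    have h2 : (K ^ (2 / η)) ^ (η / 2) < x ^ (η / 2) :=
      Real.rpow_lt_rpow (by positivity) hKx (by positivity)
    rw [← Real.rpow_mul hK0.le] at h2
    have h3 : 2 / η * (η / 2) = 1 := by field_simp
    rwa [h3, Real.rpow_one] at h2
  have hy1 : 1 ≤ x ^ (η / 2) := Real.one_le_rpow hx1 (by positivity)
  have hlogx : Real.log x + 1 ≤ (2 / η + 1) * x ^ (η / 2) := by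
    have h2 := Real.log_le_rpow_div hx0.le (show 0 < η / 2 by positivity)
    have h3 : x ^ (η / 2) / (η / 2) = 2 / η * x ^ (η / 2) := by field_simp
    rw [h3] at h2
    linarith
  have hxη : x ^ η = x ^ (η / 2) * x ^ (η / 2) := by
    rw [← Real.rpow_add hx0]
    congr 1
    ring
  have hlt : 16000000 * (Real.log x + 1) < ε ^ 2 * x ^ η := by
    have h2 : 16000000 * (Real.log x + 1) ≤ (16000000 * (2 / η + 1)) * x ^ (η / 2) := by
      calc 16000000 * (Real.log x + 1) ≤ 16000000 * ((2 / η + 1) * x ^ (η / 2)) := by linarith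
        _ = _ := by ring
    have h3 : 16000000 * (2 / η + 1) = ε ^ 2 * K := by
      rw [hK]
      field_simp
    rw [h3] at h2
    refine h2.trans_lt ?_
    rw [hxη]
    have h4 : 0 < ε ^ 2 * x ^ (η / 2) := by positivity
    nlinarith
  have hx2 : x ^ (2 + η) = x ^ 2 * x ^ η := by
    rw [Real.rpow_add hx0]
    norm_num
  rw [hx2] at hcond
  have hD0 : (0 : ℝ) ≤ D := Nat.cast_nonneg _
  have hsq : (4000 * √(p * (D + 1) * (Real.log x + 1)) * x) ^ 2 < (ε * p) ^ 2 := by
    rw [mul_pow, mul_pow, Real.sq_sqrt (by positivity)]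
    have h5 : 0 < (p : ℝ) * (D + 1) * x ^ 2 := by positivity
    calc 4000 ^ 2 * ((p : ℝ) * (D + 1) * (Real.log x + 1)) * x ^ 2
        = ((p : ℝ) * (D + 1) * x ^ 2) * (16000000 * (Real.log x + 1)) := by ring
      _ < ((p : ℝ) * (D + 1) * x ^ 2) * (ε ^ 2 * x ^ η) := mul_lt_mul_of_pos_left hlt h5
      _ = (ε ^ 2 * p) * ((D + 1) * (x ^ 2 * x ^ η)) := by ring
      _ ≤ (ε ^ 2 * p) * p := mul_le_mul_of_nonneg_left hcond (by positivity)
      _ = (ε * p) ^ 2 := by ring
  have h6 : 4000 * √(p * (D + 1) * (Real.log x + 1)) * x < ε * p :=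
    lt_of_pow_lt_pow_left₀ 2 (by positivity) hsq
  exact h1.trans_lt h6

theorem third_part (ε δ : ℝ) (hε : 0 < ε) (hδ : 0 < δ) (hδ1 : δ ≤ 1) : ∃ p₀ : ℕ,
    ∀ (V : Type u) [Fintype V] (G : SimpleGraph V),
      G.Connected → ∀ p : ℕ, p₀ ≤ p → LongestPath G p →
      (∀ u v, (G.dist u v : ℝ) ≤ (p : ℝ) ^ (1 - δ)) →
      (Fintype.card V : ℝ) ≤ Real.exp ((p : ℝ) ^ (δ / 3)) →
      (copNumber G : ℝ) < ε * p := by
  obtain ⟨p₁, hp₁⟩ := second_part ε (1 / 2) hε (by norm_num)
  obtain ⟨p₂, hp₂⟩ := exists_nat_gt ((16 : ℝ) ^ (6 / δ))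
  refine ⟨max p₁ p₂, fun V _ G hG p hpp hp hD hn => ?_⟩
  have hpp2 : (16 : ℝ) ^ (6 / δ) < p :=
    hp₂.trans_le (by exact_mod_cast (le_max_right _ _).trans hpp)
  obtain ⟨u, v, q, hq, hqp⟩ := hp.1
  have hpn : p ≤ Fintype.card V := by
    have := hq.length_lt
    omega
  have hp1 : 1 ≤ p := by omega
  have hp1' : (1 : ℝ) ≤ p := by exact_mod_cast hp1
  have hp0 : (0 : ℝ) < p := by linarith
  have hpn' : (p : ℝ) ≤ Fintype.card V := by exact_mod_cast hpn
  have hlogn : Real.log (Fintype.card V) ≤ (p : ℝ) ^ (δ / 3) :=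
    (Real.log_le_iff_le_exp (by linarith)).2 hn
  have hlogn0 : 0 ≤ Real.log (Fintype.card V) := Real.log_nonneg (by linarith)
  have ha : 1 ≤ (p : ℝ) ^ (1 - δ) := Real.one_le_rpow hp1' (by linarith)
  have hb : 1 ≤ (p : ℝ) ^ (δ / 3) := Real.one_le_rpow hp1' (by positivity)
  refine hp₁ V G hG p ((le_max_left _ _).trans hpp) hp ⌊(p : ℝ) ^ (1 - δ)⌋₊
    (fun u v => Nat.le_floor (hD u v)) ?_
  have hfl : (⌊(p : ℝ) ^ (1 - δ)⌋₊ : ℝ) ≤ (p : ℝ) ^ (1 - δ) := Nat.floor_le (by linarith)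
  have h16 : (16 : ℝ) ≤ (p : ℝ) ^ (δ / 6) := by
    have h1 : ((16 : ℝ) ^ (6 / δ)) ^ (δ / 6) ≤ (p : ℝ) ^ (δ / 6) :=
      Real.rpow_le_rpow (by positivity) hpp2.le (by positivity)
    rw [← Real.rpow_mul (by norm_num)] at h1
    have h2 : 6 / δ * (δ / 6) = 1 := by
      field_simp
    rwa [h2, Real.rpow_one] at h1
  have h8 : (2 : ℝ) ^ (2 + 1 / 2 : ℝ) ≤ 8 := by
    calc (2 : ℝ) ^ (2 + 1 / 2 : ℝ) ≤ (2 : ℝ) ^ (3 : ℝ) :=
          Real.rpow_le_rpow_of_exponent_le (by norm_num) (by norm_num)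
      _ = 8 := by
        rw [show (3 : ℝ) = ((3 : ℕ) : ℝ) by norm_num, Real.rpow_natCast]
        norm_num
  calc ((⌊(p : ℝ) ^ (1 - δ)⌋₊ : ℝ) + 1) * (Real.log (Fintype.card V) + 1) ^ (2 + 1 / 2 : ℝ)
      ≤ (2 * (p : ℝ) ^ (1 - δ)) * (2 * (p : ℝ) ^ (δ / 3)) ^ (2 + 1 / 2 : ℝ) := by
        apply mul_le_mul (by linarith) _ (by positivity) (by positivity)
        exact Real.rpow_le_rpow (by linarith) (by linarith) (by norm_num)
    _ = 2 * (2 : ℝ) ^ (2 + 1 / 2 : ℝ) *
          ((p : ℝ) ^ (1 - δ) * (p : ℝ) ^ (δ / 3 * (2 + 1 / 2))) := by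
        rw [Real.mul_rpow (by norm_num) (by linarith), ← Real.rpow_mul hp0.le]
        ring
    _ ≤ 16 * ((p : ℝ) ^ (1 - δ) * (p : ℝ) ^ (δ / 3 * (2 + 1 / 2))) := by
        apply mul_le_mul_of_nonneg_right (by linarith) (by positivity)
    _ ≤ (p : ℝ) ^ (δ / 6) * ((p : ℝ) ^ (1 - δ) * (p : ℝ) ^ (δ / 3 * (2 + 1 / 2))) := by
        apply mul_le_mul_of_nonneg_right h16 (by positivity)
    _ = p := by
        rw [← Real.rpow_add hp0, ← Real.rpow_add hp0]
        have h3 : δ / 6 + (1 - δ + δ / 3 * (2 + 1 / 2)) = 1 := by ring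
        rw [h3, Real.rpow_one]

/-- (1) Let `G` be a connected graph on `n` vertices whose distances are at most `D` and whose
longest path has `p` vertices. Then
`c(G) ≤ 4000 √(p (D + 1) (log (log n + 1) + 1)) (log n + 1)`.

(2) For all `ε, η > 0` there is a `p₀` such that `c(G) < ε p` for every connected graph `G` on `n`
vertices whose longest path has `p ≥ p₀` vertices and whose distances are at most `D`, where
`(D + 1) (log n + 1) ^ (2 + η) ≤ p`.

(3) For all `ε > 0` and `0 < δ ≤ 1` there is a `p₀` such that `c(G) < ε p` for every connected graph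
`G` with at most `exp (p ^ (δ / 3))` vertices whose longest path has `p ≥ p₀` vertices and whose
distances are at most `p ^ (1 - δ)`. -/
theorem result :
    (∀ (V : Type u) [Fintype V] (G : SimpleGraph V), G.Connected → ∀ p : ℕ, LongestPath G p →
      ∀ D : ℕ, (∀ u v, G.dist u v ≤ D) →
      (copNumber G : ℝ) ≤
        4000 * √(p * (D + 1) * (Real.log (Real.log (Fintype.card V) + 1) + 1)) *
          (Real.log (Fintype.card V) + 1)) ∧
    (∀ ε η : ℝ, 0 < ε → 0 < η → ∃ p₀ : ℕ, ∀ (V : Type u) [Fintype V] (G : SimpleGraph V),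
      G.Connected → ∀ p : ℕ, p₀ ≤ p → LongestPath G p → ∀ D : ℕ, (∀ u v, G.dist u v ≤ D) →
      ((D : ℝ) + 1) * (Real.log (Fintype.card V) + 1) ^ (2 + η) ≤ p →
      (copNumber G : ℝ) < ε * p) ∧
    ∀ ε δ : ℝ, 0 < ε → 0 < δ → δ ≤ 1 → ∃ p₀ : ℕ, ∀ (V : Type u) [Fintype V] (G : SimpleGraph V),
      G.Connected → ∀ p : ℕ, p₀ ≤ p → LongestPath G p →
      (∀ u v, (G.dist u v : ℝ) ≤ (p : ℝ) ^ (1 - δ)) →
      (Fintype.card V : ℝ) ≤ Real.exp ((p : ℝ) ^ (δ / 3)) →
      (copNumber G : ℝ) < ε * p :=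
  ⟨fun V _ G hG p hp D hD => first_part V G hG p hp D hD,
    fun ε η hε hη => second_part ε η hε hη,
    fun ε δ hε hδ hδ1 => third_part ε δ hε hδ hδ1⟩

end Pool.Agent.Results.MP_8941bc_co.SmallDiameter
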